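import Pool.Agent.H97.LA.Targets

/-!
Circuits with linear algebra gates (MP_c62aed_lc), row LINM: the matrices of a gate at two right
hand sides are similar.
-/

set_option autoImplicit false

namespace Pool.Agent.H97.LA

open Finset Pool.Agent.H60.SYM Pool.Agent.H42.XS

theorem sg_add (a b : ZMod 2) : sg (a + b) = sg a * sg b := by
  unfold sg
  revert a b
  decide

theorem sg_sq (a : ZMod 2) : sg a * sg a = 1 := by
  unfold sg
  revert a
  decide

theorem pair_add {m : ℕ} (c x y : Fin m → ZMod 2) : pair c (x + y) = pair c x + pair c y := by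
  unfold pair
  rw [← sum_add_distrib]
  refine sum_congr rfl fun v _ => ?_
  rw [Pi.add_apply, mul_add]

theorem nt_ring {K : Type} [Ring K] (h2 : IsUnit (2 : K)) (x : K) (hx : x + x = 0) : x = 0 := by
  obtain ⟨u, hu⟩ := h2
  have h1 : (u : K) * x = 0 := by rw [hu, two_mul, hx]
  have h3 := congrArg (fun y => (↑u⁻¹ : K) * y) h1
  simpa using h3

theorem nt_pow {X : Type} [AddCommGroup X] (h : ∀ x : X, x + x = 0 → x = 0) (m : ℕ) (x : X)
    (hx : (2 ^ m : ℤ) • x = 0) : x = 0 := by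
  induction m generalizing x with
  | zero => simpa using hx
  | succ m ih =>
    refine ih x (h _ ?_)
    rw [← two_zsmul, ← mul_smul, mul_comm, ← pow_succ]
    exact hx

theorem pf_LINM (hFOV : T_FOV) (hEPR : T_EPR) : T_LINM := by
  classical
  intro n m K _ h2 J _ _ W b A At s₀ L f β β' hb hA hL hdep hf hfW hfY
  have hntK := nt_ring h2
  have hntM : ∀ x : Matrix J J K, x + x = 0 → x = 0 := by
    intro x hx
    ext i j
    exact hntK _ (congrFun (congrFun hx i) j)
  obtain ⟨hE1, hE2, hE3, hE4⟩ := hEPR n K h2 J W b hb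
  obtain ⟨N, hN⟩ : ∃ N : ℕ → (Fin m → ZMod 2) → Matrix J J K, ∀ l c,
      N l c = ∑ γ : Fin m → ZMod 2, sg (pair c γ) • L l γ := ⟨_, fun _ _ => rfl⟩
  obtain ⟨E, hE⟩ : ∃ E : (Fin n → ZMod 2) → Matrix J J K, E = EE K W b := ⟨_, rfl⟩
  rw [← hE] at hE1 hE2 hE3 hE4
  have hinv : ∀ l γ, ∑ c : Fin m → ZMod 2, sg (pair c γ) • N l c = (2 ^ m : ℤ) • L l γ := by
    intro l γ
    have h1 := (hFOV m (Matrix J J K) hntM (L l)).1 γ
    rw [← h1]
    exact sum_congr rfl fun c _ => by rw [hN]
  have hbig : ∀ l c, s₀ ≤ wt c → N l c = 0 := by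
    intro l c hc
    ext i j
    obtain ⟨H, hH1, hH2⟩ := hdep l i j
    have h1 := (hFOV m K hntK (fun γ => L l γ i j)).2 H hH2 c (fun hcH => by
      have := hH1 c hcH
      omega)
    rw [hN, Matrix.sum_apply]
    simp only [Matrix.smul_apply, Matrix.zero_apply]
    exact h1
  have hequi : ∀ l c, ∀ w ∈ W, ∀ i j, N l c (b w i) (b w j) = sg (pair (At c) w) • N l c i j := by
    intro l c w hw i j
    rw [hN, Matrix.sum_apply, Matrix.sum_apply, smul_sum,
      ← Equiv.sum_comp (Equiv.addRight (A w))]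
    refine sum_congr rfl fun γ _ => ?_
    simp only [Matrix.smul_apply, Equiv.coe_addRight]
    rw [hL w hw, pair_add, sg_add, hA, mul_comm, mul_smul]
  have hcomm : ∀ l c u, N l c * E u = E (u + At c) * N l c := by
    intro l c u
    exact hE4 (N l c) (At c) (hequi l c) u
  have hzz : ∀ z : Fin n → ZMod 2, z + z = 0 := by
    intro z
    funext v
    simp only [Pi.add_apply, Pi.zero_apply]
    exact CharTwo.add_self_eq_zero _
  obtain ⟨D, hD⟩ : ∃ D : Matrix J J K, D = ∑ u, f u • E u := ⟨_, rfl⟩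
  have hDN : ∀ l c, D * N l c = sg (pair c (β + β')) • (N l c * D) := by
    intro l c
    have h1 : D * N l c = ∑ u, f (u + At c) • (N l c * E u) := by
      rw [hD, sum_mul, ← Equiv.sum_comp (Equiv.addRight (At c))]
      refine sum_congr rfl fun u _ => ?_
      simp only [Equiv.coe_addRight]
      rw [smul_mul_assoc, ← hcomm]
    rw [h1, hD, mul_sum, smul_sum]
    refine sum_congr rfl fun u _ => ?_
    rw [mul_smul_comm, ← mul_smul]
    by_cases hY1 : YY W b u
    · by_cases hY2 : YY W b (u + At c)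
      · by_cases hw : wt c < s₀
        · rw [hfY u c hY1 hY2 hw]
        · rw [hbig l c (not_lt.1 hw), zero_mul, smul_zero, smul_zero]
      · rw [hcomm, hE1 _ hY2, zero_mul, smul_zero, smul_zero]
    · rw [hE1 _ hY1, mul_zero, smul_zero, smul_zero]
  have hDL : ∀ l, D * L l β = L l β' * D := by
    intro l
    have h1 : (2 ^ m : ℤ) • (D * L l β) = (2 ^ m : ℤ) • (L l β' * D) := by
      rw [← mul_smul_comm, ← smul_mul_assoc, ← hinv, ← hinv, mul_sum, sum_mul]
      refine sum_congr rfl fun c _ => ?_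
      rw [mul_smul_comm, hDN, ← mul_smul, smul_mul_assoc, pair_add, sg_add, ← mul_assoc, sg_sq,
        one_mul]
    have h3 : (2 ^ m : ℤ) • (D * L l β - L l β' * D) = 0 := by
      rw [smul_sub, h1, sub_self]
    exact sub_eq_zero.1 (nt_pow hntM m _ h3)
  have hDD : D * D = (4 ^ n : ℤ) • (1 : Matrix J J K) := by
    rw [hD]
    exact hE3 f hf hfW
  have hunit : IsUnit ((4 ^ n : ℤ) • (1 : Matrix J J K)) := by
    have h1 : ((4 ^ n : ℤ) • (1 : Matrix J J K)) = (Matrix.scalar J) ((2 : K) ^ (2 * n)) := by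
      ext i j
      rw [Matrix.smul_apply, Matrix.scalar_apply, Matrix.diagonal_apply, Matrix.one_apply]
      split_ifs
      · rw [zsmul_one, pow_mul]
        push_cast
        norm_num
      · simp
    rw [h1]
    exact (h2.pow (2 * n)).map (Matrix.scalar J)
  obtain ⟨v, hv⟩ := hunit
  have hr : D * (D * (↑v⁻¹ : Matrix J J K)) = 1 := by
    rw [← mul_assoc, hDD, ← hv, Units.mul_inv]
  have hl : ((↑v⁻¹ : Matrix J J K) * D) * D = 1 := by
    rw [mul_assoc, hDD, ← hv, Units.inv_mul]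
  have heq : (↑v⁻¹ : Matrix J J K) * D = D * (↑v⁻¹ : Matrix J J K) := by
    calc (↑v⁻¹ : Matrix J J K) * D = ((↑v⁻¹ : Matrix J J K) * D) * (D * (D * ↑v⁻¹)) := by
          rw [hr, mul_one]
      _ = (((↑v⁻¹ : Matrix J J K) * D) * D) * (D * ↑v⁻¹) := by simp only [mul_assoc]
      _ = _ := by rw [hl, one_mul]
  refine ⟨D, D * (↑v⁻¹ : Matrix J J K), hr, ?_, fun l => ?_⟩
  · rw [← heq]
    exact hl
  · rw [hDL l, mul_assoc, hr, mul_one]

end Pool.Agent.H97.LA
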