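import Pool.Agent.H42.XS.All
import Pool.Agent.H97.LA.LINM
import Pool.Agent.H78.LA.APP
import Pool.Agent.H35.LA.VALA
import Pool.Agent.H63.LA.FOV
import Pool.Agent.H19.LA.EPR
import Pool.Agent.H19.LA.INPX
import Pool.Agent.H42.LA.WLK
import Pool.Agent.H42.LA.EXTD
import Pool.Agent.H77.LA.FMS
import Pool.Agent.H33.LA.STEP
import Pool.Agent.H77.LA.CORLA
import Pool.Agent.H36.LA.ORBX
import Pool.Agent.H12.LA.FOUJ
import Pool.Agent.H48.LA.MATY
import Pool.Agent.H56.LA.REDI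
import Pool.Agent.H40.LA.NUMX
import Pool.Agent.H37.LA.UPL
import Pool.Agent.H70.LA.FINLA

/-!
Circuits with linear algebra gates (MP_c62aed_lc): all modules together.
-/

set_option autoImplicit false

namespace Pool.Agent.H97.LA

theorem mainLA : MainLA := by
  have hCLA := Pool.Agent.H14.XS.pf_CLA
  have hEX := Pool.Agent.H14.XS.pf_EX
  have hAPP := Pool.Agent.H78.LA.pf_APP
  have hVALA := Pool.Agent.H35.LA.pf_VALA hAPP
  have hFMS := Pool.Agent.H77.LA.pf_FMS hCLA hEX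
  have hLINM := pf_LINM Pool.Agent.H63.LA.pf_FOV Pool.Agent.H19.LA.pf_EPR
  have hSTEP := Pool.Agent.H33.LA.pf_STEP hAPP hVALA hLINM Pool.Agent.H42.LA.pf_WLK hFMS
  have hCORLA := Pool.Agent.H77.LA.pf_CORLA hSTEP (Pool.Agent.H19.LA.pf_INPX hCLA) hFMS hVALA
  have hFOU := Pool.Agent.H27.SYM.fou Pool.Agent.H19.SYM.bin
  have hMATY := Pool.Agent.H48.LA.pf_MATY (Pool.Agent.H12.LA.pf_FOUJ hFOU)
  exact Pool.Agent.H70.LA.pf_FINLA (Pool.Agent.H77.XS.pf_SIZ hCLA) hCORLA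
    Pool.Agent.H36.LA.pf_ORBX hMATY Pool.Agent.H56.LA.pf_REDI Pool.Agent.H42.LA.pf_EXTD
    Pool.Agent.H40.LA.pf_NUMX (Pool.Agent.H60.SYM.shiftG Pool.Agent.H19.SYM.hoef)
    Pool.Agent.H37.LA.pf_UPL

end Pool.Agent.H97.LA
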