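import Pool.Agent.H42.XS.Stmt

/-!
Circuits for satisfiability with linear algebra gates, symmetric under exchanges of literals
(MP_c62aed_lc): the definitions used by the statement.
-/

set_option autoImplicit false

namespace Pool.Agent.H97.LA

open Finset Pool.Agent.H60.SYM Pool.Agent.H42.XS

/-- An operator on tuples of square matrices over a ring `K` in which `2` is invertible. The entries
of the matrix with the label `l` are `code l v` for values `v` of gates. The result does not change
when all the matrices are conjugated by the same invertible matrix. -/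
structure Op (V : Type) where
  K : Type
  [ring : Ring K]
  two : IsUnit (2 : K)
  code : ℕ → V → K
  fn : (n : ℕ) → (ℕ → Matrix (Fin n) (Fin n) K) → V
  inv : ∀ (n : ℕ) (M M' : ℕ → Matrix (Fin n) (Fin n) K) (D D' : Matrix (Fin n) (Fin n) K),
    D * D' = 1 → D' * D = 1 → (∀ l, M' l = D * M l * D') → fn n M' = fn n M

attribute [instance] Op.ring

/-- the operator applied to matrices of values with rows and columns in `J` -/
noncomputable def Op.app {V : Type} (o : Op V) (J : Type) [Fintype J] (M : ℕ → J → J → V) : V :=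
  o.fn (Fintype.card J) fun l a b =>
    o.code l (M l ((Fintype.equivFin J).symm a) ((Fintype.equivFin J).symm b))

/-- Circuits with `s` gates and `t` indices. Input gates read a position. A gate `g` of the other
kind applies the operator `op g` to the matrices whose rows and columns are the indices `i` with
`own i = g`; the entry `(i, j)` of the matrix with the label `l` is the value of `ch l i j`. -/
structure LCirc (I V : Type) (s t : ℕ) where
  inp : Fin s → Option I
  bit : Bool → V
  op : Fin s → Op V
  own : Fin t → Fin s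
  ch : ℕ → Fin t → Fin t → Fin s
  acyclic : ∀ l i j, own i = own j → ch l i j < own i
  out : Fin s
  acc : V → Bool

/-- value of the gate `g` on the input `φ` -/
noncomputable def LCirc.val {I V : Type} {s t : ℕ} (C : LCirc I V s t) (φ : I → Bool)
    (g : Fin s) : V :=
  match C.inp g with
  | some i => C.bit (φ i)
  | none => (C.op g).app {i : Fin t // C.own i = g} fun l i j => C.val φ (C.ch l i.1 j.1)
termination_by g
decreasing_by
  exact lt_of_lt_of_eq (C.acyclic l i.1 j.1 (i.2.trans j.2.symm)) (congrArg Fin.val i.2)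

/-- the answer of the circuit -/
noncomputable def LCirc.ans {I V : Type} {s t : ℕ} (C : LCirc I V s t) (φ : I → Bool) : Bool :=
  C.acc (C.val φ C.out)

/-- The group `U` acts on the circuit: on the gates by `a`, on the indices by `b`. -/
structure IsAct {n k s t : ℕ} {V : Type} (U : Submodule (ZMod 2) (Fin n → ZMod 2))
    (C : LCirc (Cl n k) V s t) (a : (Fin n → ZMod 2) → Equiv.Perm (Fin s))
    (b : (Fin n → ZMod 2) → Equiv.Perm (Fin t)) : Prop where
  ga : ∀ f ∈ U, ∀ f' ∈ U, a (f + f') = a f * a f'
  gb : ∀ f ∈ U, ∀ f' ∈ U, b (f + f') = b f * b f'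
  out : ∀ f ∈ U, a f C.out = C.out
  inp : ∀ f ∈ U, ∀ g, C.inp (a f g) = (C.inp g).map (exch f)
  op : ∀ f ∈ U, ∀ g, C.op (a f g) = C.op g
  own : ∀ f ∈ U, ∀ i, C.own (b f i) = a f (C.own i)
  ch : ∀ f ∈ U, ∀ l i j, C.own i = C.own j → C.ch l (b f i) (b f j) = a f (C.ch l i j)

/-- the circuit is symmetric under the exchanges in `U` -/
def LSym {n k s t : ℕ} {V : Type} (U : Submodule (ZMod 2) (Fin n → ZMod 2))
    (C : LCirc (Cl n k) V s t) : Prop :=
  ∃ a b, IsAct U C a b

/-- The circuit is right on all formulas with exactly `m` clauses, each with exactly `k` literals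
and `k` different variables, that are satisfiable or such that every assignment violates at least
`(1 - 1 / k) m / 2 ^ k` clauses. -/
def LRight {n k s t : ℕ} {V : Type} (m : ℕ) (C : LCirc (Cl n k) V s t) : Prop :=
  ∀ φ : Cl n k → Bool, size φ = m → (∀ D, φ D = true → (D.1.image Prod.fst).card = k) →
    (Satisfiable φ → C.ans φ = true) ∧
    ((∀ x, (1 - 1 / k) * m / 2 ^ k ≤ (viol φ x : ℝ)) → C.ans φ = false)

/-- lower and upper bound for the number of gates and indices -/
def MainLA : Prop :=
  (∀ k : ℕ, 2 ≤ k → ∃ c n₀ : ℕ, ∀ n ≥ n₀, ∀ (U : Submodule (ZMod 2) (Fin n → ZMod 2)) (s t : ℕ)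
    (V : Type) (C : LCirc (Cl n k) V s t), LSym U C → LRight (c * n) C →
    (2 : ℝ) ^ ((Module.finrank (ZMod 2) U : ℝ) - 12 * Real.log k / √k * n) ≤ s + t) ∧
  ∀ (n k : ℕ) (U : Submodule (ZMod 2) (Fin n → ZMod 2)), ∃ (s t : ℕ)
    (C : LCirc (Cl n k) Bool s t), LSym U C ∧ (∀ φ, C.ans φ = true ↔ Satisfiable φ) ∧
    s + t ≤ 2 ^ Module.finrank (ZMod 2) U + (2 * n + 1) ^ k + 2

end Pool.Agent.H97.LA
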