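import Pool.Agent.H97.LA.Stmt
import Pool.Agent.H42.XS.Targets

/-!
Circuits with linear algebra gates (MP_c62aed_lc): module targets.
-/

set_option autoImplicit false

namespace Pool.Agent.H97.LA

open Finset Pool.Agent.H60.SYM Pool.Agent.H42.XS

/-! ### Operators and values -/

/-- APP: operators do not depend on the names of the rows, and are invariant under similarity -/
def T_APP : Prop :=
  ∀ (V : Type) (o : Op V) (J J' : Type) [Fintype J] [Fintype J'] [DecidableEq J],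
    (∀ (σ : J ≃ J') (M : ℕ → J → J → V) (M' : ℕ → J' → J' → V),
      (∀ l i j, M' l (σ i) (σ j) = M l i j) → o.app J' M' = o.app J M) ∧
    ∀ (M M' : ℕ → J → J → V) (D D' : Matrix J J o.K), D * D' = 1 → D' * D = 1 →
      (∀ l, (Matrix.of fun i j => o.code l (M' l i j)) =
        D * (Matrix.of fun i j => o.code l (M l i j)) * D') → o.app J M' = o.app J M

/-- VALA: the values of the gates under the action -/
def T_VALA : Prop :=
  ∀ (n k s t : ℕ) (V : Type) (U : Submodule (ZMod 2) (Fin n → ZMod 2))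
    (C : LCirc (Cl n k) V s t) (a : (Fin n → ZMod 2) → Equiv.Perm (Fin s))
    (b : (Fin n → ZMod 2) → Equiv.Perm (Fin t)), IsAct U C a b →
    ∀ f ∈ U, ∀ (φ : Cl n k → Bool) (g : Fin s),
      C.val (fun D => φ (exch f D)) g = C.val φ (a f g)

/-! ### Linear algebra -/

/-- the sign `(-1) ^ a` -/
def sg (a : ZMod 2) : ℤ := if a = 0 then 1 else -1

/-- FOV: the Fourier transform on `F_2 ^ m` with values in a group without elements of order two -/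
def T_FOV : Prop :=
  ∀ (m : ℕ) (X : Type) [AddCommGroup X], (∀ x : X, x + x = 0 → x = 0) →
    ∀ F : (Fin m → ZMod 2) → X,
      (∀ β, ∑ c : Fin m → ZMod 2, sg (pair c β) • (∑ β' : Fin m → ZMod 2, sg (pair c β') • F β') =
        (2 ^ m : ℤ) • F β) ∧
      ∀ H : Submodule (ZMod 2) (Fin m → ZMod 2),
        (∀ β β', (∀ c ∈ H, pair c β = pair c β') → F β = F β') →
        ∀ c ∉ H, ∑ β' : Fin m → ZMod 2, sg (pair c β') • F β' = 0

/-- permutation matrices -/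
def pm (K : Type) [Ring K] {J : Type} [DecidableEq J] (σ : Equiv.Perm J) : Matrix J J K :=
  fun i j => if i = σ j then 1 else 0

open scoped Classical in
/-- the projection to the vectors on which `W` acts by the character `u`, times the order of
`W` -/
noncomputable def EE (K : Type) [Ring K] {n : ℕ} {J : Type} [Fintype J] [DecidableEq J]
    (W : Submodule (ZMod 2) (Fin n → ZMod 2)) (b : (Fin n → ZMod 2) → Equiv.Perm J)
    (u : Fin n → ZMod 2) : Matrix J J K :=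
  ∑ w ∈ univ.filter (fun w : Fin n → ZMod 2 => w ∈ W), sg (pair u w) • pm K (b w)

/-- the characters which occur in the permutation representation of `W` -/
def YY {n : ℕ} {J : Type} (W : Submodule (ZMod 2) (Fin n → ZMod 2))
    (b : (Fin n → ZMod 2) → Equiv.Perm J) (u : Fin n → ZMod 2) : Prop :=
  ∃ i, ∀ w ∈ W, b w i = i → pair u w = 0

/-- EPR: the projections -/
def T_EPR : Prop :=
  ∀ (n : ℕ) (K : Type) [Ring K], IsUnit (2 : K) → ∀ (J : Type) [Fintype J] [DecidableEq J]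
    (W : Submodule (ZMod 2) (Fin n → ZMod 2)) (b : (Fin n → ZMod 2) → Equiv.Perm J),
    (∀ w ∈ W, ∀ w' ∈ W, b (w + w') = b w * b w') →
    (∀ u, ¬ YY W b u → EE K W b u = 0) ∧
    (∑ u, EE K W b u = (2 ^ n : ℤ) • (1 : Matrix J J K)) ∧
    (∀ f : (Fin n → ZMod 2) → ℤ, (∀ u, f u = 1 ∨ f u = -1) →
      (∀ u v, perp W v → f (u + v) = f u) →
      (∑ u, f u • EE K W b u) * (∑ u, f u • EE K W b u) = (4 ^ n : ℤ) • (1 : Matrix J J K)) ∧
    ∀ (N : Matrix J J K) (z : Fin n → ZMod 2),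
      (∀ w ∈ W, ∀ i j, N (b w i) (b w j) = sg (pair z w) • N i j) →
      ∀ u, N * EE K W b u = EE K W b (u + z) * N

/-- LINM: the matrices of a gate at two right hand sides are similar -/
def T_LINM : Prop :=
  ∀ (n m : ℕ) (K : Type) [Ring K], IsUnit (2 : K) → ∀ (J : Type) [Fintype J] [DecidableEq J]
    (W : Submodule (ZMod 2) (Fin n → ZMod 2)) (b : (Fin n → ZMod 2) → Equiv.Perm J)
    (A : (Fin n → ZMod 2) → (Fin m → ZMod 2)) (At : (Fin m → ZMod 2) → (Fin n → ZMod 2))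
    (s₀ : ℕ) (L : ℕ → (Fin m → ZMod 2) → Matrix J J K) (f : (Fin n → ZMod 2) → ℤ)
    (β β' : Fin m → ZMod 2),
    (∀ w ∈ W, ∀ w' ∈ W, b (w + w') = b w * b w') →
    (∀ c w, pair c (A w) = pair (At c) w) →
    (∀ w ∈ W, ∀ l γ i j, L l (γ + A w) (b w i) (b w j) = L l γ i j) →
    (∀ l i j, ∃ H : Submodule (ZMod 2) (Fin m → ZMod 2), (∀ c ∈ H, wt c < s₀) ∧
      ∀ γ γ', (∀ c ∈ H, pair c γ = pair c γ') → L l γ i j = L l γ' i j) →
    (∀ u, f u = 1 ∨ f u = -1) → (∀ u v, perp W v → f (u + v) = f u) →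
    (∀ u c, YY W b u → YY W b (u + At c) → wt c < s₀ →
      f (u + At c) = sg (pair c (β + β')) * f u) →
    ∃ D D' : Matrix J J K, D * D' = 1 ∧ D' * D = 1 ∧ ∀ l, L l β' = D * L l β * D'

/-! ### Walks -/

/-- number of the rows of `T j` which are not rows of an earlier vector -/
def nw {m ρ : ℕ} (T : Fin ρ → Fin m → ZMod 2) (j : Fin ρ) : ℕ :=
  (univ.filter fun x => T j x ≠ 0 ∧ ∀ j' < j, T j' x = 0).card

/-- WLK: the signs -/
def T_WLK : Prop :=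
  ∀ (n m : ℕ) (At : (Fin m → ZMod 2) → (Fin n → ZMod 2))
    (Wp : Submodule (ZMod 2) (Fin n → ZMod 2)) (Y : Set (Fin n → ZMod 2)) (s₀ ρ R : ℕ)
    (δ : Fin m → ZMod 2), (∀ c c', At (c + c') = At c + At c') → 1 ≤ ρ → 1 ≤ s₀ →
    2 * s₀ * ρ ≤ R → (∀ u ∈ Y, ∀ v ∈ Wp, u + v ∈ Y) →
    (∀ c, At c ∈ Wp → wt c ≤ 2 * R → wt c < s₀) →
    (∀ c, wt c < s₀ → At c ∈ Wp → pair c δ = 0) →
    (∀ u₀ ∈ Y, ∀ T : Fin ρ → Fin m → ZMod 2, (∀ j, wt (T j) ≤ R) →
      (∀ j, u₀ + At (T j) ∈ Y) → ∃ j, nw T j < s₀) →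
    ∃ f : (Fin n → ZMod 2) → ℤ, (∀ u, f u = 1 ∨ f u = -1) ∧ (∀ u, ∀ v ∈ Wp, f (u + v) = f u) ∧
      ∀ u c, u ∈ Y → u + At c ∈ Y → wt c < s₀ → f (u + At c) = sg (pair c δ) * f u

/-! ### The formulas -/

/-- `A f` for the matrix `A` of the system `e` -/
def sft {M n d : ℕ} (e : Fin M → Fin (d + 1) → Fin n) (f : Fin n → ZMod 2) : Fin M → ZMod 2 :=
  fun i => ∑ p, f (e i p)

/-- FMS: exchanges change the right hand sides -/
def T_FMS : Prop :=
  ∀ (M n d : ℕ) (e : Fin M → Fin (d + 1) → Fin n) (f : Fin n → ZMod 2),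
    (∀ β, fml e (β + sft e f) = fun D => fml e β (exch f D)) ∧
    (∀ c, pair c (sft e f) = pair (comb e c) f) ∧ ∀ c c', comb e (c + c') = comb e c + comb e c'

/-- INPX: a clause depends on one right hand side -/
def T_INPX : Prop :=
  ∀ (M n d : ℕ) (e : Fin M → Fin (d + 1) → Fin n), Dist e → ∀ D : Cl n (d + 1),
    ∃ H : Submodule (ZMod 2) (Fin M → ZMod 2), (∀ c ∈ H, wt c ≤ 1) ∧
      ∀ β β', (∀ c ∈ H, pair c β = pair c β') → fml e β D = fml e β' D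

/-- the value of the gate `g` depends only on combinations of less than `s₀` right hand sides -/
def Dep {M n d s t : ℕ} {V : Type} (e : Fin M → Fin (d + 1) → Fin n)
    (C : LCirc (Cl n (d + 1)) V s t) (s₀ : ℕ) (g : Fin s) : Prop :=
  ∃ H : Submodule (ZMod 2) (Fin M → ZMod 2), (∀ c ∈ H, wt c < s₀) ∧
    ∀ β β', (∀ c ∈ H, pair c β = pair c β') → C.val (fml e β) g = C.val (fml e β') g

/-- STEP: one gate -/
def T_STEP : Prop :=
  ∀ (M n d s t s₀ ρ R : ℕ) (V : Type) (e : Fin M → Fin (d + 1) → Fin n)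
    (U W : Submodule (ZMod 2) (Fin n → ZMod 2)) (C : LCirc (Cl n (d + 1)) V s t)
    (a : (Fin n → ZMod 2) → Equiv.Perm (Fin s)) (b : (Fin n → ZMod 2) → Equiv.Perm (Fin t))
    (g : Fin s), IsAct U C a b → (∀ f, f ∈ W ↔ f ∈ U ∧ a f g = g) → C.inp g = none → 1 ≤ s₀ →
    1 ≤ ρ → 2 * s₀ * ρ ≤ R →
    (∀ y : Fin M → ZMod 2, s₀ ≤ wt y → wt y ≤ 2 * R → ¬ perp W (comb e y)) →
    (∀ u₀ : Fin n → ZMod 2, ∀ T : Fin ρ → Fin M → ZMod 2, (∀ j, wt (T j) ≤ R) →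
      (∃ i, C.own i = g ∧ ∀ w ∈ W, b w i = i → pair u₀ w = 0) →
      (∀ j, ∃ i, C.own i = g ∧ ∀ w ∈ W, b w i = i → pair (u₀ + comb e (T j)) w = 0) →
      ∃ j, nw T j < s₀) →
    (∀ l i j, C.own i = g → C.own j = g → Dep e C s₀ (C.ch l i j)) →
    ∀ β β', (∀ c : Fin M → ZMod 2, wt c < s₀ → perp W (comb e c) → pair c β = pair c β') →
      C.val (fml e β) g = C.val (fml e β') g

/-- the vector `z`, as a functional on `U`, vanishes on the stabiliser of a gate or an index -/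
def AvB {n s t : ℕ} (U : Submodule (ZMod 2) (Fin n → ZMod 2))
    (a : (Fin n → ZMod 2) → Equiv.Perm (Fin s)) (b : (Fin n → ZMod 2) → Equiv.Perm (Fin t))
    (z : Fin n → ZMod 2) : Prop :=
  (∃ g, ∀ f ∈ U, a f g = g → pair z f = 0) ∨ ∃ i, ∀ f ∈ U, b f i = i → pair z f = 0

/-- CORLA: the circuit does not separate the two formulas -/
def T_CORLA : Prop :=
  ∀ (M n d s t s₀ ρ R : ℕ) (V : Type) (e : Fin M → Fin (d + 1) → Fin n)
    (U : Submodule (ZMod 2) (Fin n → ZMod 2)) (C : LCirc (Cl n (d + 1)) V s t)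
    (a : (Fin n → ZMod 2) → Equiv.Perm (Fin s)) (b : (Fin n → ZMod 2) → Equiv.Perm (Fin t))
    (c : Fin M → ZMod 2), Dist e → IsAct U C a b → 2 ≤ s₀ → 1 ≤ ρ → 2 * s₀ * ρ ≤ R →
    (∀ y : Fin M → ZMod 2, y ≠ 0 → wt y < s₀ → ¬ perp U (comb e y)) →
    (∀ y : Fin M → ZMod 2, s₀ ≤ wt y → wt y ≤ 2 * R → ¬ AvB U a b (comb e y)) →
    (∀ u₀, AvB U a b u₀ → ∀ T : Fin ρ → Fin M → ZMod 2, (∀ j, wt (T j) ≤ R) →
      (∀ j, AvB U a b (u₀ + comb e (T j))) → ∃ j, nw T j < s₀) →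
    C.val (fml e 0) C.out = C.val (fml e c) C.out

/-! ### Counting -/

/-- ORBX: the number of functionals which vanish on a stabiliser -/
def T_ORBX : Prop :=
  ∀ (n N : ℕ) (U : Submodule (ZMod 2) (Fin n → ZMod 2))
    (a : (Fin n → ZMod 2) → Equiv.Perm (Fin N)),
    (∀ f ∈ U, ∀ f' ∈ U, a (f + f') = a f * a f') →
    (Nat.card {z // ∃ x, ∀ f ∈ U, a f x = x → pair z f = 0} : ℝ) ≤
      N * 2 ^ ((n : ℝ) - Module.finrank (ZMod 2) U)

/-- FOUJ: joint distribution of several combinations -/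
def T_FOUJ : Prop :=
  ∀ (n d M ρ s₀ : ℕ) (T : Fin ρ → Fin M → ZMod 2) (z : Fin ρ → Fin n → ZMod 2), d + 1 ≤ n →
    (∀ j, s₀ ≤ nw T j) →
    (Nat.card {e : Fin M → Fin (d + 1) → Fin n // Partite e ∧ ∀ j, comb e (T j) = z j} : ℝ) ≤
      Nat.card {e : Fin M → Fin (d + 1) → Fin n // Partite e} *
        (2 ^ (d + 1) / 2 ^ n *
          (1 + Real.exp (-(2 * s₀ * (d + 1) / (n + d + 1)))) ^ n) ^ ρ

/-- MATY: existence of the system -/
def T_MATY : Prop :=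
  ∀ (d K ρ : ℕ) (α η A : ℝ), 1 ≤ K → 1 ≤ ρ → 0 < α → 0 < η → 4 * ρ * α ≤ 1 →
    A = 4 * ρ * α * Real.log (Real.exp 1 * K / (4 * ρ * α)) +
      Real.exp (-(9 / 5 * (α * (d + 1)))) →
    A < η * Real.log 2 → Real.log 2 < ρ * (η * Real.log 2 - A) →
    ∃ n₀ : ℕ, ∀ n ≥ n₀, ∀ B : Finset (Fin n → ZMod 2), (B.card : ℝ) ≤ 2 ^ ((1 - η) * n) →
      ∃ e : Fin (K * n) → Fin (d + 1) → Fin n, (∀ i, Function.Injective (e i)) ∧
        (∀ y : Fin (K * n) → ZMod 2, ⌊α * n⌋₊ ≤ wt y → wt y ≤ 4 * ρ * ⌊α * n⌋₊ →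
          comb e y ∉ B) ∧
        ∀ u₀ ∈ B, ∀ T : Fin ρ → Fin (K * n) → ZMod 2, (∀ j, wt (T j) ≤ 2 * ρ * ⌊α * n⌋₊) →
          (∀ j, u₀ + comb e (T j) ∈ B) → ∃ j, nw T j < ⌊α * n⌋₊

/-- REDI: the equations in small relations are dropped -/
def T_REDI : Prop :=
  ∀ (n d K θ : ℕ) (e : Fin ((K + 1) * n) → Fin (d + 1) → Fin n)
    (U : Submodule (ZMod 2) (Fin n → ZMod 2)), 1 ≤ θ → 2 * θ ≤ n →
    (∀ i, Function.Injective (e i)) →
    (∀ y : Fin ((K + 1) * n) → ZMod 2, θ < wt y → wt y ≤ 2 * θ → ¬ perp U (comb e y)) →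
    ∃ h : Fin (K * n) → Fin ((K + 1) * n), Function.Injective h ∧ Dist (fun i => e (h i)) ∧
      ∀ y : Fin (K * n) → ZMod 2, y ≠ 0 → wt y ≤ 2 * θ →
        ¬ perp U (comb (fun i => e (h i)) y)

/-- EXTD: extension of a vector by zero -/
def T_EXTD : Prop :=
  ∀ (M N n d : ℕ) (e : Fin M → Fin (d + 1) → Fin n) (h : Fin N → Fin M), Function.Injective h →
    (∀ y : Fin N → ZMod 2, comb e (Function.extend h y 0) = comb (fun i => e (h i)) y ∧
      wt (Function.extend h y 0) = wt y) ∧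
    ∀ (ρ : ℕ) (T : Fin ρ → Fin N → ZMod 2) (j : Fin ρ),
      nw (fun j => Function.extend h (T j) 0) j = nw T j

/-- NUMX: the constants -/
def T_NUMX : Prop :=
  ∀ k : ℕ, 2 ≤ k → 12 * Real.log k / √k < 1 → ∀ (ρ : ℕ) (α A : ℝ),
    ρ = ⌈√k / (3 * Real.log k)⌉₊ → α = Real.log k / k →
    A = 4 * ρ * α * Real.log (Real.exp 1 * ((16 * k ^ 2 + 1 : ℕ) : ℝ) / (4 * ρ * α)) +
      Real.exp (-(9 / 5 * (α * k))) →
    1 ≤ ρ ∧ 4 * ρ * α ≤ 1 ∧ A < 12 * Real.log k / √k * Real.log 2 ∧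
      Real.log 2 < ρ * (12 * Real.log k / √k * Real.log 2 - A)

/-! ### The upper bound, assembly -/

/-- UPL: the circuit that tries all exchanges -/
def T_UPL : Prop :=
  ∀ (n k : ℕ) (U : Submodule (ZMod 2) (Fin n → ZMod 2)), ∃ (s t : ℕ)
    (C : LCirc (Cl n k) Bool s t), LSym U C ∧ (∀ φ, C.ans φ = true ↔ Satisfiable φ) ∧
    s + t ≤ 2 ^ Module.finrank (ZMod 2) U + (2 * n + 1) ^ k + 2

/-- FINLA: assembly -/
def T_FINLA : Prop :=
  T_SIZ → T_CORLA → T_ORBX → T_MATY → T_REDI → T_EXTD → T_NUMX → T_SHIFTG → T_UPL → MainLA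

end Pool.Agent.H97.LA
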